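import Pool.Agent.Helper37_CAP.Stmts

/-!
# Module CBE of squad CAP: the bound for the exceptional set `E5`
-/

set_option autoImplicit false

open Finset

namespace Pool.Agent.CAP.H33

/-- one triple `(s, κ, i)` -/
theorem cnt_one (s κ i X : ℕ) (hs : 1 ≤ s) (hκ : 1 ≤ κ) (hi : 1 ≤ i) :
    (cnt (fun n => ∃ j : ℕ, 1 ≤ j ∧ n + 1 = s * (1 + κ * i) * (1 + κ * j)) X : ℝ) ≤
      (X : ℝ) * ((s : ℝ)⁻¹ * (((κ : ℝ) ^ 2)⁻¹ * (i : ℝ)⁻¹)) := by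
  have h1 : cnt (fun n => ∃ j : ℕ, 1 ≤ j ∧ n + 1 = s * (1 + κ * i) * (1 + κ * j)) X ≤
      X / (s * κ ^ 2 * i) := by
    classical
    unfold cnt
    have hsub : ((Finset.Icc 1 X).filter
        (fun n => ∃ j : ℕ, 1 ≤ j ∧ n + 1 = s * (1 + κ * i) * (1 + κ * j))) ⊆
        (Finset.Icc 1 (X / (s * κ ^ 2 * i))).image
          (fun j => s * (1 + κ * i) * (1 + κ * j) - 1) := by
      intro n hn
      simp only [Finset.mem_filter, Finset.mem_Icc] at hn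
      obtain ⟨⟨h1, h2⟩, j, hj, he⟩ := hn
      simp only [Finset.mem_image, Finset.mem_Icc]
      refine ⟨j, ⟨hj, ?_⟩, by omega⟩
      rw [Nat.le_div_iff_mul_le (by positivity)]
      have h3 : j * (s * κ ^ 2 * i) + 1 ≤ s * (1 + κ * i) * (1 + κ * j) := by
        have e : s * (1 + κ * i) * (1 + κ * j) =
            j * (s * κ ^ 2 * i) + s + s * κ * i + s * κ * j := by ring
        rw [e]
        omega
      omega
    calc ((Finset.Icc 1 X).filter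
        (fun n => ∃ j : ℕ, 1 ≤ j ∧ n + 1 = s * (1 + κ * i) * (1 + κ * j))).card
        ≤ ((Finset.Icc 1 (X / (s * κ ^ 2 * i))).image
          (fun j => s * (1 + κ * i) * (1 + κ * j) - 1)).card := Finset.card_le_card hsub
      _ ≤ (Finset.Icc 1 (X / (s * κ ^ 2 * i))).card := Finset.card_image_le
      _ = X / (s * κ ^ 2 * i) := by simp
  calc (cnt (fun n => ∃ j : ℕ, 1 ≤ j ∧ n + 1 = s * (1 + κ * i) * (1 + κ * j)) X : ℝ)
      ≤ ((X / (s * κ ^ 2 * i) : ℕ) : ℝ) := by exact_mod_cast h1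
    _ ≤ (X : ℝ) / ((s * κ ^ 2 * i : ℕ) : ℝ) := Nat.cast_div_le
    _ = (X : ℝ) * ((s : ℝ)⁻¹ * (((κ : ℝ) ^ 2)⁻¹ * (i : ℝ)⁻¹)) := by
        push_cast
        rw [div_eq_mul_inv, mul_inv, mul_inv]
        ring

theorem cbe (hCNT : CNT) : CBE := by
  intro z X hz hX
  obtain ⟨hmono, _, hUnion, _, _, _⟩ := hCNT
  have hstep : cnt (E5 z) X ≤ cnt (fun n => ∃ t ∈ (Finset.Icc 1 z) ×ˢ
      ((Finset.Ioc (z ^ 5) X) ×ˢ (Finset.Icc 1 X)),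
      (fun (t : ℕ × ℕ × ℕ) (n : ℕ) => ∃ j : ℕ, 1 ≤ j ∧
        n + 1 = t.1 * (1 + t.2.1 * t.2.2) * (1 + t.2.1 * j)) t n) X := by
    refine hmono _ _ X ?_
    rintro n - hnX ⟨s, κ, i, j, hs, hsz, hκ, hi, hj, he⟩
    refine ⟨(s, κ, i), ?_, j, hj, he⟩
    have hκ1 : 1 ≤ κ := by omega
    have hA : 1 + κ * i ≤ s * (1 + κ * i) * (1 + κ * j) := by
      calc 1 + κ * i = 1 * (1 + κ * i) * 1 := by ring
        _ ≤ s * (1 + κ * i) * (1 + κ * j) := by gcongr; omega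
    have hB : κ ≤ κ * i := Nat.le_mul_of_pos_right κ hi
    have hC : i ≤ κ * i := Nat.le_mul_of_pos_left i hκ1
    simp only [Finset.mem_product, Finset.mem_Icc, Finset.mem_Ioc]
    refine ⟨⟨hs, hsz⟩, ⟨hκ, by omega⟩, hi, by omega⟩
  have hsum := hUnion (ℕ × ℕ × ℕ) ((Finset.Icc 1 z) ×ˢ
      ((Finset.Ioc (z ^ 5) X) ×ˢ (Finset.Icc 1 X)))
      (fun (t : ℕ × ℕ × ℕ) (n : ℕ) => ∃ j : ℕ, 1 ≤ j ∧
        n + 1 = t.1 * (1 + t.2.1 * t.2.2) * (1 + t.2.1 * j)) X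
  have h1 : (cnt (E5 z) X : ℝ) ≤ ∑ t ∈ (Finset.Icc 1 z) ×ˢ
      ((Finset.Ioc (z ^ 5) X) ×ˢ (Finset.Icc 1 X)),
      (X : ℝ) * ((t.1 : ℝ)⁻¹ * (((t.2.1 : ℝ) ^ 2)⁻¹ * (t.2.2 : ℝ)⁻¹)) := by
    calc (cnt (E5 z) X : ℝ) ≤ ((∑ t ∈ (Finset.Icc 1 z) ×ˢ
        ((Finset.Ioc (z ^ 5) X) ×ˢ (Finset.Icc 1 X)),
        cnt (fun (n : ℕ) => ∃ j : ℕ, 1 ≤ j ∧
          n + 1 = t.1 * (1 + t.2.1 * t.2.2) * (1 + t.2.1 * j)) X : ℕ) : ℝ) := by
          exact_mod_cast hstep.trans hsum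
      _ = ∑ t ∈ (Finset.Icc 1 z) ×ˢ ((Finset.Ioc (z ^ 5) X) ×ˢ (Finset.Icc 1 X)),
        (cnt (fun (n : ℕ) => ∃ j : ℕ, 1 ≤ j ∧
          n + 1 = t.1 * (1 + t.2.1 * t.2.2) * (1 + t.2.1 * j)) X : ℝ) := by
          push_cast
          rfl
      _ ≤ _ := by
          refine Finset.sum_le_sum ?_
          intro t ht
          simp only [Finset.mem_product, Finset.mem_Icc, Finset.mem_Ioc] at ht
          exact cnt_one t.1 t.2.1 t.2.2 X ht.1.1 (by omega) ht.2.2.1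
  have h2 : ∑ t ∈ (Finset.Icc 1 z) ×ˢ ((Finset.Ioc (z ^ 5) X) ×ˢ (Finset.Icc 1 X)),
      (X : ℝ) * ((t.1 : ℝ)⁻¹ * (((t.2.1 : ℝ) ^ 2)⁻¹ * (t.2.2 : ℝ)⁻¹)) =
      (X : ℝ) * ((∑ s ∈ Finset.Icc 1 z, (s : ℝ)⁻¹) *
        ((∑ κ ∈ Finset.Ioc (z ^ 5) X, ((κ : ℝ) ^ 2)⁻¹) *
          (∑ i ∈ Finset.Icc 1 X, (i : ℝ)⁻¹))) := by
    rw [← Finset.mul_sum, Finset.sum_product, Finset.sum_mul]
    refine congrArg (fun y => (X : ℝ) * y) (Finset.sum_congr rfl ?_)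
    intro s _
    simp only []
    rw [← Finset.mul_sum, Finset.sum_product, Finset.sum_mul]
    refine congrArg (fun y => (s : ℝ)⁻¹ * y) (Finset.sum_congr rfl ?_)
    intro κ _
    rw [Finset.mul_sum]
  have hz0 : (0 : ℝ) < z := by positivity
  have b1 : ∑ s ∈ Finset.Icc 1 z, (s : ℝ)⁻¹ ≤ z := by
    calc ∑ s ∈ Finset.Icc 1 z, (s : ℝ)⁻¹ ≤ ∑ s ∈ Finset.Icc 1 z, (1 : ℝ) := by
          refine Finset.sum_le_sum ?_
          intro s hs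
          rw [Finset.mem_Icc] at hs
          have : (1 : ℝ) ≤ s := by exact_mod_cast hs.1
          exact inv_le_one_of_one_le₀ this
      _ = z := by simp
  have b2 : ∑ κ ∈ Finset.Ioc (z ^ 5) X, ((κ : ℝ) ^ 2)⁻¹ ≤ ((z : ℝ) ^ 5)⁻¹ := by
    by_cases h : z ^ 5 ≤ X
    · have := sum_Ioc_inv_sq_le_sub (α := ℝ) (k := z ^ 5) (n := X)
        (by positivity) h
      have h0 : (0 : ℝ) ≤ (X : ℝ)⁻¹ := by positivity
      push_cast at this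
      linarith
    · rw [Finset.Ioc_eq_empty (by omega), Finset.sum_empty]
      positivity
  have b3 : ∑ i ∈ Finset.Icc 1 X, (i : ℝ)⁻¹ ≤ 1 + Real.log X := by
    have := harmonic_le_one_add_log X
    rw [harmonic_eq_sum_Icc] at this
    push_cast at this
    exact this
  have b2' : 0 ≤ ∑ κ ∈ Finset.Ioc (z ^ 5) X, ((κ : ℝ) ^ 2)⁻¹ :=
    Finset.sum_nonneg fun _ _ => by positivity
  have b3' : 0 ≤ ∑ i ∈ Finset.Icc 1 X, (i : ℝ)⁻¹ :=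
    Finset.sum_nonneg fun _ _ => by positivity
  have hX1 : (1 : ℝ) ≤ X := by exact_mod_cast hX
  have hlog : Real.log X ≤ Real.log (X + 1) := Real.log_le_log (by linarith) (by linarith)
  have hlog0 : 0 ≤ Real.log X := Real.log_nonneg hX1
  calc (cnt (E5 z) X : ℝ) ≤ _ := h1
    _ = _ := h2
    _ ≤ (X : ℝ) * ((z : ℝ) * (((z : ℝ) ^ 5)⁻¹ * (1 + Real.log X))) := by gcongr
    _ = X * (1 + Real.log X) / z ^ 4 := by
        field_simp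
    _ ≤ (X + 1) * (1 + Real.log (X + 1)) / z ^ 4 := by
        gcongr
        linarith

end Pool.Agent.CAP.H33
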